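import Mathlib
import Pool.Agent.H.MP_b612d4_pr.C

namespace Pool.Agent.Results.MP_b612d4_pr.Unstable

open MeasureTheory Filter Topology Set

/-- Probability that exactly one of `N` messages is sent, each with probability `p`. -/
noncomputable def a (N : ℕ) (p : ℝ) : ℝ := N * p * (1 - p) ^ (N - 1)

/-- Transition operator of the chain `(N, S)` for arrival law `ν`. -/
noncomputable def T (ν : Measure ℕ) (C : ℝ) (h ε : ℝ → ℝ) (f : ℕ × ℝ → ℝ) (x : ℕ × ℝ) : ℝ :=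
  ∫ ξ, (a x.1 ((1 - ε x.2) / x.2) / 2 * f (x.1 - 1 + ξ, x.2 + h x.2)
    + a x.1 (1 / x.2) / 2 * f (x.1 - 1 + ξ, max (x.2 - h x.2) 1)
    + (1 - (a x.1 ((1 - ε x.2) / x.2) + a x.1 (1 / x.2)) / 2) * f (x.1 + ξ, x.2 + C)) ∂ν

def InH (h : ℝ → ℝ) : Prop :=
  h 1 = 0 ∧ (∀ x, 1 ≤ x → 0 ≤ h x) ∧ MonotoneOn h (Ici 1) ∧ Tendsto h atTop atTop ∧
    MonotoneOn (fun x => x - h x) (Ici 1) ∧ Tendsto (fun x => x - h x) atTop atTop ∧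
    Tendsto (fun x => h x / x) atTop (𝓝 0)

def InE (h ε : ℝ → ℝ) : Prop :=
  (∀ x, 1 ≤ x → 0 < ε x ∧ ε x ≤ 1 / 2) ∧ Tendsto ε atTop (𝓝 0) ∧
    Tendsto (fun x => h x * ε x ^ 2) atTop atTop

theorem result :
    (∃ ν : Measure ℕ, IsProbabilityMeasure ν ∧ Integrable (fun ξ : ℕ => (ξ : ℝ)) ν ∧
      0 < ∫ ξ, (ξ : ℝ) ∂ν ∧ ∫ ξ, (ξ : ℝ) ∂ν < Real.exp (-1)) ∧
    ∀ ν : Measure ℕ, IsProbabilityMeasure ν → 0 < ∫ ξ, (ξ : ℝ) ∂ν →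
    ∃ (C : ℝ) (h ε : ℝ → ℝ), 0 < C ∧ InH h ∧ InE h ε ∧ ∀ x : ℕ × ℝ, 1 ≤ x.2 →
      ¬ ∃ μ : Measure (ℝ × ℝ), IsProbabilityMeasure μ ∧ ∀ A, MeasurableSet A →
        Tendsto (fun n => (T ν C h ε)^[n] (fun y => A.indicator 1 ((y.1 : ℝ), y.2)) x)
          atTop (𝓝 (μ.real A)) :=
  Pool.Agent.H.MP_b612d4_pr.main

end Pool.Agent.Results.MP_b612d4_pr.Unstable
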